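import Pool.Agent.H65.Flat.StripC

/-!
# MP_45d33d_gt: finiteness of the number of maximal flat strips

Let `S = Γ \ ℍ` be a closed oriented surface of genus at least two with a smooth Riemannian metric
`e^{2u} |dz|² / (Im z)²` of nonpositive curvature (by the uniformization theorem every closed
oriented Riemannian surface of genus at least two is of this form). Then the number of maximal flat
strips of positive width in `S`, up to isometries of the domain, is finite.
The definitions are in `Pool/Agent/H65/Flat/Def.lean`.
-/

namespace Pool.Agent.Results.MP_45d33d_gt.FinitelyManyStrips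

open H65.Flat
open scoped UpperHalfPlane

/-- There is a finite set `A` of maximal flat strips such that every maximal flat strip differs
from one of them only by an isometry of the domain (and a deck transformation). -/
theorem result (S : Surface) (hK : ∀ z : ℍ, S.K z ≤ 0) :
    ∃ A : Set (ℝ × (ℝ × ℝ → ℍ)), A.Finite ∧ (∀ a ∈ A, S.IsMaximalFlatStrip a.1 a.2) ∧
      ∀ (w : ℝ) (F : ℝ × ℝ → ℍ), S.IsMaximalFlatStrip w F → ∃ a ∈ A, S.Same a.1 a.2 w F :=
  S.finite_strips hK

end Pool.Agent.Results.MP_45d33d_gt.FinitelyManyStrips
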